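import Pool.Agent.E8helper1.TPQ.Conv
import Pool.Agent.E8helper13.TW.Dim
import Pool.Agent.E8helper39.TW.LIM1
import Pool.Agent.E8helper41.TW.LimM
import Pool.Agent.E8helper44.TW.Red
import Pool.Agent.E8helper55.TW.Core
import Pool.Agent.E8helper56.TW.Abs2
import Pool.Agent.E8helper56.TW.AsmQ2
import Pool.Agent.E8helper56.TW.KILL
import Pool.Agent.E8helper56.TW.WSL
import Pool.Agent.E8helper77.TW.Fin
import Pool.Agent.E8helper77.TW.Kil2
import Pool.Agent.E8helper80.TW.Met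
import Pool.Agent.E8helper83.TW.Clo
import Pool.Agent.E8helper87.TW.CONV
import Pool.Agent.E8helper87.TW.NIL
import Pool.Agent.E8helper97.TW.Emb

/-!
# Assembly
-/

set_option autoImplicit false

namespace Pool.Agent.E8helper1.TPQ

open Pool.Agent.E8helper1.TW

theorem s_lim : S_LIM :=
  Pool.Agent.E8helper41.TW.t_LIM Pool.Agent.E8helper39.TW.t_LIM1 Pool.Agent.E8helper41.TW.t_KIL1
    Pool.Agent.E8helper77.TW.t_KIL2 Pool.Agent.E8helper55.TW.lim2

theorem s_abs2 : S_ABS2 :=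
  Pool.Agent.E8helper56.TW.t_ABS2 Pool.Agent.E8helper44.TW.t_RED Pool.Agent.E8helper56.TW.t_KILL
    s_lim (Pool.Agent.E8helper13.TW.t_DIM Pool.Agent.E8helper87.TW.t_NIL)
    Pool.Agent.E8helper87.TW.t_CONV Pool.Agent.E8helper87.TW.t_SEMI
    Pool.Agent.E8helper83.TW.t_CLO Pool.Agent.E8helper83.TW.t_CJ

theorem s_asmq2 : S_ASMQ2 :=
  Pool.Agent.E8helper56.TW.t_ASMQ2 s_abs2 Pool.Agent.E8helper83.TW.t_CJ
    Pool.Agent.E8helper80.TW.t_MET Pool.Agent.E8helper77.TW.t_DCA Pool.Agent.E8helper77.TW.t_DCB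
    Pool.Agent.E8helper56.TW.t_WSL

end Pool.Agent.E8helper1.TPQ
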