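import Pool.Agent.E8helper1.TPQ.Pub
import Pool.Agent.E8helper1.TP5.Conv
import Pool.Agent.E8helper1.TW.GeoQ

/-!
# Conversion of the definitions
-/

open CategoryTheory AlgebraicGeometry Filter Topology

open scoped ENNReal

universe u

namespace Pool.Agent.E8helper1.TPQ

open Module
open Pool.Agent.H914 Pool.Agent.H914.VarClass Pool.Agent.H914.VarClass.Obj
  Pool.Agent.H914.WeilCohomology Pool.Agent.H281R3.HT
open Pool.Agent.Y129 (pw pj PowerAction TG tateClasses tateDim cycRank finrank_TG)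
open Pool.Agent.TH125.Gal (IsGaloisAct Intertwines TateAct)
open Pool.Agent.E8helper1.TX
open Pool.Agent.E8helper1.TP (Gal hdim algDim Quot algDim_eq alg)
open Pool.Agent.E8helper56.TY (M5)
open Pool.Agent.W534 (interNumbers lin_ext)

set_option linter.unusedSectionVars false

variable {k : Type u} [Field k] {𝒱 : VarClass k} {ops : CycleOps 𝒱}
  {W : WeilCohomology.{u, 0} ops} {X Z : 𝒱.Obj}

theorem alg_zero (j : ℕ) : (0 : W.H Z) ∈ alg W Z j := ⟨0, SmVar.IsCyc.zero _ _, map_zero _⟩

theorem alg_add {j : ℕ} {x y : W.H Z} (hx : x ∈ alg W Z j) (hy : y ∈ alg W Z j) :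
    x + y ∈ alg W Z j := by
  obtain ⟨z, hz, rfl⟩ := hx
  obtain ⟨w, hw, rfl⟩ := hy
  exact ⟨z + w, hz.add hw, map_add _ _ _⟩

theorem alg_smul {j : ℕ} (q : ℚ) {x : W.H Z} (hx : x ∈ alg W Z j) :
    (q : W.K) • x ∈ alg W Z j := by
  obtain ⟨z, hz, rfl⟩ := hx
  exact ⟨q • z, hz.smul q, W.cl_smul q z⟩

theorem alg_sum {j : ℕ} {α : Type} (s : Finset α) {f : α → W.H Z}
    (h : ∀ i ∈ s, f i ∈ alg W Z j) : ∑ i ∈ s, f i ∈ alg W Z j := by
  classical
  induction s using Finset.induction_on with
  | empty =>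
    rw [Finset.sum_empty]
    exact alg_zero j
  | insert a s ha ih =>
    rw [Finset.sum_insert ha]
    exact alg_add (h a (Finset.mem_insert_self a s))
      (ih fun i hi => h i (Finset.mem_insert_of_mem hi))

theorem tr_alg {j : ℕ} (hj : j ≤ Z.dim) {z w : Z.Cycles} (hz : Z.IsCyc j z)
    (hw : Z.IsCyc (Z.dim - j) w) :
    W.tr Z (W.cl Z z * W.cl Z w) = (Z.V.degCycle (ops.mul z w) : W.K) :=
  Pool.Agent.W534.tr_mul_cl' hz hw (by omega)

/-- The rational structure. -/
theorem rational_of (hD : HomEqNum W Z) (j : ℕ) : IsRational W.K (alg W Z j) := by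
  classical
  obtain ⟨b, hb, hspan, hlin⟩ := exists_linearIndependent W.K (alg W Z j)
  have : Fintype b := hlin.setFinite.fintype
  let e := Fintype.equivFin b
  refine ⟨Fintype.card b, fun i => (e.symm i : W.H Z), hlin.comp _ e.symm.injective, ?_⟩
  have hsum : ∀ a : b → ℚ, ∑ i, (a (e.symm i) : W.K) • (e.symm i : W.H Z) =
      ∑ i, (a i : W.K) • (i : W.H Z) := fun a =>
    Equiv.sum_comp e.symm fun i => (a i : W.K) • (i : W.H Z)
  ext x
  constructor
  · intro hx
    obtain ⟨g, hg⟩ : ∃ g : b → ℚ, x = ∑ i, (g i : W.K) • (i : W.H Z) := by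
      by_cases hj : j ≤ Z.dim
      · obtain ⟨κ, hκ⟩ : ∃ κ : b → W.K, x = ∑ i, κ i • (i : W.H Z) := by
          have h1 : x ∈ Submodule.span W.K b := by
            rw [hspan]
            exact Submodule.subset_span hx
          have h2 : b = Set.range ((↑) : b → W.H Z) := Subtype.range_coe.symm
          rw [h2, Submodule.mem_span_range_iff_exists_fun] at h1
          obtain ⟨κ, hκ⟩ := h1
          exact ⟨κ, hκ.symm⟩
        choose zf hzf using fun i : b => hb i.2
        obtain ⟨z, hz, hzx⟩ := hx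
        let F : Option b → {z : Z.Cycles // Z.IsCyc j z} := fun o =>
          o.elim ⟨z, hz⟩ fun i => ⟨zf i, (hzf i).1⟩
        have hno : ¬ LinearIndependent ℚ (fun o => interNumbers ops Z j (F o)) := by
          intro hli
          have h1 := lin_ext (K := W.K) hli (c := fun o => o.elim (-1) κ) (by
            intro w
            rw [Fintype.sum_option]
            have e1 : ∀ o, (interNumbers ops Z j (F o) w : W.K) =
                W.tr Z (W.cl Z (F o).1 * W.cl Z w.1) := fun o =>
              (tr_alg hj (F o).2 w.2).symm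
            simp only [e1]
            change -1 * W.tr Z (W.cl Z z * W.cl Z w.1) +
              ∑ i, κ i * W.tr Z (W.cl Z (zf i) * W.cl Z w.1) = 0
            have e2 : ∀ i, κ i * W.tr Z (W.cl Z (zf i) * W.cl Z w.1) =
                W.tr Z ((κ i • (i : W.H Z)) * W.cl Z w.1) := fun i => by
              rw [(hzf i).2, smul_mul_assoc, map_smul, smul_eq_mul]
            rw [Finset.sum_congr rfl fun i _ => e2 i, ← map_sum, ← Finset.sum_mul, ← hκ, hzx]
            ring)
          have h2 := congrFun h1 none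
          exact absurd h2 (neg_ne_zero.2 one_ne_zero)
        rw [Fintype.not_linearIndependent_iff] at hno
        obtain ⟨g, hg, i0, hi0⟩ := hno
        have hcl : (g none : W.K) • x + ∑ i, (g (some i) : W.K) • (i : W.H Z) = 0 := by
          have hy : (g none : W.K) • x + ∑ i, (g (some i) : W.K) • (i : W.H Z) ∈ alg W Z j :=
            alg_add (alg_smul _ ⟨z, hz, hzx⟩) (alg_sum _ fun i _ => alg_smul _ (hb i.2))
          obtain ⟨y, hy1, hy2⟩ := hy
          rw [← hy2]
          refine hD j hj y hy1 fun w hw => ?_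
          have h1 : ((Z.V.degCycle (ops.mul y w) : ℚ) : W.K) = 0 := by
            rw [← tr_alg hj hy1 hw, hy2, add_mul, map_add, smul_mul_assoc, map_smul,
              Finset.sum_mul, map_sum]
            have h2 := congrFun hg ⟨w, hw⟩
            rw [Finset.sum_apply, Fintype.sum_option] at h2
            have h3 := congrArg (fun q : ℚ => (q : W.K)) h2
            simp only [Pi.smul_apply, smul_eq_mul, Rat.cast_add, Rat.cast_sum, Rat.cast_mul,
              Pi.zero_apply, Rat.cast_zero] at h3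
            rw [← h3]
            congr 1
            · rw [smul_eq_mul, ← hzx]
              congr 1
              exact tr_alg hj hz hw
            · refine Finset.sum_congr rfl fun i _ => ?_
              rw [smul_mul_assoc, map_smul, smul_eq_mul]
              congr 1
              rw [← (hzf i).2]
              exact tr_alg hj (hzf i).1 hw
          exact_mod_cast h1
        have hg0 : g none ≠ 0 := by
          intro h0
          rw [h0, Rat.cast_zero, zero_smul, zero_add] at hcl
          have h1 := Fintype.linearIndependent_iff.1 hlin (fun i => (g (some i) : W.K)) hcl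
          cases i0 with
          | none => exact hi0 h0
          | some i =>
            have h2 := h1 i
            exact hi0 (by exact_mod_cast h2)
        have hg0' : (g none : W.K) ≠ 0 := by exact_mod_cast hg0
        refine ⟨fun i => -(g none)⁻¹ * g (some i), ?_⟩
        have h1 : (g none : W.K) • x = -∑ i, (g (some i) : W.K) • (i : W.H Z) :=
          eq_neg_of_add_eq_zero_left hcl
        have h2 : x = ((g none : W.K)⁻¹) • ((g none : W.K) • x) := by
          rw [smul_smul, inv_mul_cancel₀ hg0', one_smul]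
        rw [h2, h1, smul_neg, Finset.smul_sum, ← Finset.sum_neg_distrib]
        refine Finset.sum_congr rfl fun i _ => ?_
        rw [smul_smul, ← neg_smul]
        congr 1
        push_cast
        ring
      · obtain ⟨z, hz, rfl⟩ := hx
        have h1 := W.cl_mem hz
        rw [W.gr_eq_bot Z (2 * j) (by omega), Submodule.mem_bot] at h1
        refine ⟨0, ?_⟩
        rw [h1]
        simp
    refine ⟨fun i => g (e.symm i), ?_⟩
    rw [hg, ← hsum g]
  · rintro ⟨a, rfl⟩
    exact alg_sum _ fun i _ => alg_smul _ (hb (e.symm i).2)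

theorem homNum_of (hD : HomEqNum W Z) : HomNum W Z := by
  intro j
  refine ⟨rational_of hD j, fun c hc h => ?_⟩
  obtain ⟨z, hz, rfl⟩ := hc
  by_cases hj : j ≤ Z.dim
  · refine hD j hj z hz fun w hw => ?_
    have h1 := h _ _ ⟨w, hw, rfl⟩
    rw [tr_alg hj hz hw] at h1
    exact_mod_cast h1
  · have h1 := W.cl_mem hz
    rw [W.gr_eq_bot Z (2 * j) (by omega), Submodule.mem_bot] at h1
    exact h1

theorem hasFrob_of (G : Gal W X) {ℓ : ℕ} [Fact ℓ.Prime] (φ : W.K ≃+* ℚ_[ℓ])
    (h : Frobenii G φ) : (∀ g, ‖φ (G.chi g : W.K)‖ = 1) ∧ TW.HasFrobQ φ G.chi G.rho := by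
  obtain ⟨h1, d, v, hv, hl, hd⟩ := h
  refine ⟨h1, d, v, hv, hl, fun g ε hε => ?_⟩
  obtain ⟨γ, p, hp, hγ, hfr, hd1, hd2⟩ := hd g ε hε
  refine ⟨γ, p, hp, hγ, ?_, ?_, ?_⟩
  · intro i
    obtain ⟨P, k1, k2, k3, k5, k4⟩ := hfr i
    refine ⟨P, k1, k2.le, k3, fun L _ _ v α hα => k5 L v α hα, fun a ha => ?_⟩
    rw [TP5.sum_apply]
    exact k4 a ha
  · rw [← map_sub]
    exact hd1
  · intro a b
    rw [Aq_apply, Aq_apply, ← map_sub, ← Finsupp.sub_apply, ← map_sub]
    exact hd2 a b

/-- **The theorem for Tate classes**, every characteristic. -/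
theorem tate_lawQ (hASM : TW.S_ASMQ2) (hEMB : TW.S_EMB) {ℓ : ℕ} [Fact ℓ.Prime]
    (φ : W.K ≃+* ℚ_[ℓ])
    (hX : 0 < hdim W X) (G : Gal W X) (hG : Frobenii G φ) (hss : G.Semisimple) (M : ℕ)
    (hM : M = exponent (hdim W X) X.dim) (m : ℕ)
    (hm : M ≤ m) (hT : G.TateConj (2 * m - 1)) :
    (∀ n, HomNum W (pw X n)) ∧ ∃ N : ℕ, 1 ≤ N ∧ N ≤ bound (hdim W X) M ∧
      Quot G.tateDim (algDim W X) (bound (hdim W X) M) N ∧ (N = 1 ↔ ∀ n, G.TateConj n) ∧
      ((hdim W X : ℝ) ^ 3 * (M : ℝ) ^ 2 * Real.log (2 * hdim W X * M + 1) ≤ m → N = 1) := by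
  have hnt : Nontrivial (W.H X) := Module.nontrivial_of_finrank_pos hX
  have hb : finrank W.K (W.H X) = hdim W X := rfl
  obtain ⟨hχ, hfrob⟩ := hasFrob_of G φ hG
  subst hM
  have h1 : 1 ≤ (hdim W X).factorial * ((2 * X.dim + 1) * (hdim W X).factorial) ^
      (hdim W X - 1) :=
    Nat.succ_le_of_lt (Nat.mul_pos (Nat.factorial_pos _)
      (Nat.pow_pos (Nat.mul_pos (by omega) (Nat.factorial_pos _))))
  have hM2 : 2 ≤ exponent (hdim W X) X.dim := by
    rw [exponent]
    omega
  obtain ⟨m', rfl⟩ : ∃ m', m = m' + 1 := ⟨m - 1, by omega⟩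
  have e : 2 * (m' + 1) - 1 = m' + m' + 1 := by omega
  rw [e] at hT
  have hle := (G.le_iff _).2 hT
  obtain ⟨k2, k3⟩ := TW.main_TGQ (ρ := G.rho) Pool.Agent.E8helper76.TX.t_SSG hASM
    Pool.Agent.E8helper3.TX.t_SQRT hEMB φ G.power hχ hfrob (G.semisimple hss)
  obtain ⟨m0, hm0⟩ : ∃ m0, exponent (hdim W X) X.dim = m0 + 1 :=
    ⟨exponent (hdim W X) X.dim - 1, by omega⟩
  have k1 := k2 m0 hm0 (TG_down G.power (by omega) hle)
  obtain ⟨hN, hle', N, e1, e2, e3, e4⟩ := TW.index_ofQ G.power _ k1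
  have hdim' : ∀ n, cycRank ops (pw X n) = algDim W X n := fun n =>
    (Pool.Agent.Y133.Half.homEqNum_iff' (pw X n)).1 (hN n)
  have hiff : N = 1 ↔ ∀ n, G.TateConj n := by
    rw [e4]
    exact forall_congr' fun n => (G.conj_iff n).symm
  refine ⟨fun n => homNum_of (hN n), N, e1, e2, ⟨?_, fun n => ?_⟩, hiff, fun hm' => ?_⟩
  · simp only [hdim', ← G.dim_eq] at e3
    exact e3
  · have h3 := hle' n
    rw [hdim', ← G.dim_eq] at h3
    exact h3
  · rw [hiff]
    exact fun n => (G.le_iff n).1 (k3 m' hm' hle n)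

end Pool.Agent.E8helper1.TPQ
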