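import Pool.Agent.E8helper1.TP.Pub

/-!
# Frobenius elements in every characteristic, homological and numerical equivalence: definitions
-/

open CategoryTheory AlgebraicGeometry

universe u

namespace Pool.Agent.E8helper1.TPQ

/-- The slopes of `P` are nonnegative integral multiples of `1 / N!`, where `N` is the degree of `P`,
if they are normalized such that `q` has slope one: for every number field `L`, every maximal ideal `v`
of the ring of integers of `L` and every root `α ∈ L` of `P` there is a natural number `j` such that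
the valuations of `α ^ (N!)` and of `q ^ j` at `v` are equal. -/
def HasSlopes (q : ℕ) (P : Polynomial ℤ) : Prop :=
  ∀ (L : Type) [Field L] [NumberField L]
    (v : IsDedekindDomain.HeightOneSpectrum (NumberField.RingOfIntegers L)) (α : L),
    Polynomial.aeval α P = 0 →
    ∃ j : ℕ, v.valuation L α ^ P.natDegree.factorial = v.valuation L (q : L) ^ j

section generic

variable {K A Γ : Type} [Field K] [Ring A] [Algebra K A] [Group Γ]

/-- The map `r` has the properties of the geometric Frobenius at a place with residue field `𝔽_q`: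
for every `i` the restriction of `r` to the space `gr i` (the cohomology of degree `i`) is a zero of a
monic polynomial with integral coefficients, of degree `dim (gr i)`, all complex roots of which
have absolute value `q ^ (i / 2)`, and the slopes of which are multiples of `1 / (dim (gr i))!`. -/
def IsFrobenius (gr : ℕ → Submodule K A) (q : ℕ) (r : A → A) : Prop :=
  ∀ i, ∃ P : Polynomial ℤ, P.Monic ∧ P.natDegree = Module.finrank K (gr i) ∧
    (∀ z : ℂ, Polynomial.aeval z P = 0 → ‖z‖ ^ 2 = (q : ℝ) ^ i) ∧ HasSlopes q P ∧
    ∀ a ∈ gr i, P.sum (fun n c => (c : K) • r^[n] a) = 0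

/-- The values of `χ` are `ℓ`-adic units; there is a homogeneous basis in which the group acts by
`ℓ`-adic integral matrices; and the Frobenius elements are dense: for every `g` in the group and
every `ε > 0` there is a Frobenius element `γ` with `χ γ = q`, a power of a prime number, such that
`χ γ` and `χ g`, and the matrices of `γ` and `g`, differ by less than `ε`. -/
def HasFrobenii {ℓ : ℕ} [Fact ℓ.Prime] (φ : K ≃+* ℚ_[ℓ]) (χ : Γ → K) (gr : ℕ → Submodule K A)
    (ρ : Γ → A → A) : Prop :=
  (∀ g, ‖φ (χ g)‖ = 1) ∧ ∃ (d : ℕ) (v : Module.Basis (Fin d) K A), (∀ i, ∃ j, v i ∈ gr j) ∧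
    (∀ g i j, ‖φ (v.repr (ρ g (v j)) i)‖ ≤ 1) ∧
    ∀ g, ∀ ε > 0, ∃ (γ : Γ) (q : ℕ), IsPrimePow q ∧ χ γ = q ∧ IsFrobenius gr q (ρ γ) ∧
      ‖φ (χ γ - χ g)‖ < ε ∧ ∀ i j, ‖φ (v.repr (ρ γ (v j) - ρ g (v j)) i)‖ < ε

/-- The set `C` consists of the rational linear combinations of finitely many elements which are
linearly independent over `K` (thus `C` is a finite-dimensional rational vector space, and the map from
its tensor product with `K` is injective). -/
def IsRational (K : Type) {A : Type} [Field K] [Ring A] [Algebra K A] (C : Set A) : Prop :=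
  ∃ (r : ℕ) (c : Fin r → A), LinearIndependent K c ∧
    C = {x | ∃ a : Fin r → ℚ, x = ∑ i, (a i : K) • c i}

end generic

/-- The exponent `2 b! ((2 d + 1) b!) ^ (b - 1)`. -/
def exponent (b d : ℕ) : ℕ := 2 * (b.factorial * ((2 * d + 1) * b.factorial) ^ (b - 1))

/-- The bound `(2 b M) ^ (2 b ^ 2)`. -/
def bound (b M : ℕ) : ℕ := (2 * b * M) ^ (2 * b ^ 2)

open Pool.Agent.H914 Pool.Agent.H914.VarClass Pool.Agent.H914.VarClass.Obj
  Pool.Agent.H914.WeilCohomology
open Pool.Agent.Y129 (pw)

variable {k : Type u} [Field k] {𝒱 : VarClass k} {ops : CycleOps 𝒱}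
  {W : WeilCohomology.{u, 0} ops} {X : 𝒱.Obj}

/-- The representation on the cohomology of `X` is integral, and the Frobenius elements are dense. -/
def Frobenii (G : TP.Gal W X) {ℓ : ℕ} [Fact ℓ.Prime] (φ : W.K ≃+* ℚ_[ℓ]) : Prop :=
  HasFrobenii φ G.χ (W.gr X) (G.ρ 0)

/-- Homological and numerical equivalence are equal on `X`, and the space of the classes of the
algebraic cycles (with rational coefficients) of every codimension `j` is finite-dimensional, and its
tensor product with `W.K` embeds into the cohomology. -/
def HomNum (W : WeilCohomology.{u, 0} ops) (X : 𝒱.Obj) : Prop :=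
  ∀ j, IsRational W.K (TP.alg W X j) ∧ ∀ c ∈ TP.alg W X j,
    (∀ i, ∀ c' ∈ TP.alg W X i, W.tr X (c * c') = 0) → c = 0

end Pool.Agent.E8helper1.TPQ
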